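import Mathlib

/-!
# A binary quasi group code of length 12 whose permutation automorphism group has order 2

We exhibit a binary linear code of length 12 and dimension 6 whose permutation automorphism
group is generated by the fixed-point-free involution `(0 1)(2 3)(4 5)(6 7)(8 9)(10 11)`.
-/

set_option autoImplicit false
open BigOperators

namespace Pool.Agent.Results.MP_e1d516_co.LengthTwelve

/-- The action of a permutation `β` of the coordinates: `c^β = (c_{β⁻¹(1)}, …, c_{β⁻¹(n)})`. -/
def act {n : ℕ} (β : Equiv.Perm (Fin n)) (c : Fin n → ZMod 2) : Fin n → ZMod 2 :=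
  fun i => c (β⁻¹ i)

lemma act_one {n : ℕ} : act (1 : Equiv.Perm (Fin n)) = id := by
  funext c i; simp [act]

lemma act_mul {n : ℕ} (β γ : Equiv.Perm (Fin n)) : act (β * γ) = act β ∘ act γ := by
  funext c i; simp [act]

/-- The permutation automorphism group `PAut(C) = {β ∈ S_n : C^β = C}`. -/
def PAut {n : ℕ} (C : Submodule (ZMod 2) (Fin n → ZMod 2)) : Subgroup (Equiv.Perm (Fin n)) where
  carrier := {β | act β '' (C : Set (Fin n → ZMod 2)) = (C : Set (Fin n → ZMod 2))}
  one_mem' := by simp [act_one]
  mul_mem' := by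
    intro β γ hβ hγ
    simp only [Set.mem_ofPred_eq] at hβ hγ ⊢
    rw [act_mul, Set.image_comp, hγ, hβ]
  inv_mem' := by
    intro β hβ
    simp only [Set.mem_ofPred_eq] at hβ ⊢
    conv_lhs => rw [← hβ]
    rw [← Set.image_comp, ← act_mul, inv_mul_cancel, act_one, Set.image_id]

/-- `C` is a quasi group code if `PAut(C)` contains a nontrivial subgroup acting freely on the
coordinates. -/
def IsQuasiGroupCode {n : ℕ} (C : Submodule (ZMod 2) (Fin n → ZMod 2)) : Prop :=
  ∃ G : Subgroup (Equiv.Perm (Fin n)), G ≤ PAut C ∧ G ≠ ⊥ ∧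
    ∀ g ∈ G, g ≠ 1 → ∀ i : Fin n, g i ≠ i

/-- The columns of the parity check matrix, as six-bit numbers packed in base 64. -/
def cc (i : Fin 12) : ℕ := (![16, 48, 40, 4, 34, 1, 5, 10, 17, 18, 36, 8] : Fin 12 → ℕ) i

/-- Entries of the parity check matrix. -/
def Hm (j : Fin 6) (i : Fin 12) : ZMod 2 := if (cc i).testBit j then 1 else 0

/-- The code. -/
def C : Submodule (ZMod 2) (Fin 12 → ZMod 2) where
  carrier := {c | ∀ j : Fin 6, ∑ i, Hm j i * c i = 0}
  add_mem' := by
    intro a b ha hb j
    simp only [Pi.add_apply, mul_add, Finset.sum_add_distrib, ha j, hb j, add_zero]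
  zero_mem' := by intro j; simp
  smul_mem' := by
    intro r a ha j
    have := ha j
    simp only [Pi.smul_apply, smul_eq_mul]
    calc ∑ i, Hm j i * (r * a i) = r * ∑ i, Hm j i * a i := by
          rw [Finset.mul_sum]; exact Finset.sum_congr rfl (fun i _ => by ring)
      _ = 0 := by rw [this, mul_zero]

lemma mem_C (c : Fin 12 → ZMod 2) : c ∈ C ↔ ∀ j : Fin 6, ∑ i, Hm j i * c i = 0 := Iff.rfl

/-- xor of a list and the sums of bits mod 2 -/
lemma bits_foldr (l : List ℕ) (j : ℕ) :
    (l.map (fun x => if x.testBit j then (1 : ZMod 2) else 0)).sum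
      = if (l.foldr (fun a b => a ^^^ b) 0).testBit j then 1 else 0 := by
  induction l with
  | nil => simp
  | cons a l ih =>
    simp only [List.map_cons, List.sum_cons, List.foldr_cons, Nat.testBit_xor, ih]
    cases a.testBit j <;> cases (l.foldr (fun a b => a ^^^ b) 0).testBit j <;> decide

lemma xor_zero_of_bits (l : List ℕ) (hl : ∀ x ∈ l, x < 64)
    (h : ∀ j : Fin 6, (l.map (fun x => if x.testBit j then (1 : ZMod 2) else 0)).sum = 0) :
    l.foldr (fun a b => a ^^^ b) 0 = 0 := by
  apply Nat.eq_of_testBit_eq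
  intro j
  rw [Nat.zero_testBit]
  by_cases hj : j < 6
  · have := h ⟨j, hj⟩
    rw [bits_foldr] at this
    simpa using this
  · have hlt : l.foldr (fun a b => a ^^^ b) 0 < 2 ^ 6 := by
      clear h
      induction l with
      | nil => simp
      | cons a l ih =>
        simp only [List.foldr_cons]
        apply Nat.xor_lt_two_pow
        · exact hl a (by simp)
        · exact ih (fun x hx => hl x (by simp [hx]))
    apply Nat.testBit_lt_two_pow
    exact lt_of_lt_of_le hlt (Nat.pow_le_pow_right (by norm_num) (by omega))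

lemma cc_lt (i : Fin 12) : cc i < 64 := by
  revert i; decide

/-- The word with support given by a list of coordinates. -/
def word (l : List (Fin 12)) : Fin 12 → ZMod 2 := fun i => if i ∈ l then 1 else 0

lemma sum_word (f : Fin 12 → ZMod 2) (l : List (Fin 12)) (hl : l.Nodup) :
    ∑ i, f i * word l i = (l.map f).sum := by
  induction l with
  | nil => simp [word]
  | cons a l ih =>
    have ha : a ∉ l := (List.nodup_cons.mp hl).1
    have hl' := (List.nodup_cons.mp hl).2
    have : ∀ i, word (a :: l) i = (if i = a then 1 else 0) + word l i := by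
      intro i
      unfold word
      by_cases h : i = a
      · subst h; simp [ha]
      · simp [h]
    simp only [this, mul_add, Finset.sum_add_distrib, List.map_cons, List.sum_cons]
    rw [ih hl']
    congr 1
    simp

/-- The main constraint: images of codewords' supports under automorphisms. -/
lemma constraint (β : Equiv.Perm (Fin 12)) (hβ : β ∈ PAut C) (l : List (Fin 12)) (hl : l.Nodup)
    (hw : word l ∈ C) : (l.map (fun i => cc (β i))).foldr (fun a b => a ^^^ b) 0 = 0 := by
  apply xor_zero_of_bits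
  · intro x hx
    simp only [List.mem_map] at hx
    obtain ⟨i, _, rfl⟩ := hx
    exact cc_lt _
  · intro j
    have h1 : act β (word l) ∈ C := by
      have : act β (word l) ∈ act β '' (C : Set (Fin 12 → ZMod 2)) := ⟨_, hw, rfl⟩
      have hβ' : act β '' (C : Set (Fin 12 → ZMod 2)) = (C : Set (Fin 12 → ZMod 2)) := hβ
      rw [hβ'] at this
      exact this
    have h2 := (mem_C _).mp h1 j
    rw [← Equiv.sum_comp β] at h2
    simp only [act, Equiv.Perm.inv_def, Equiv.symm_apply_apply] at h2
    rw [sum_word (fun i => Hm j (β i)) l hl] at h2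
    rw [List.map_map]
    exact h2

/-- The fixed-point-free involution `(0 1)(2 3)(4 5)(6 7)(8 9)(10 11)`. -/
def σ : Equiv.Perm (Fin 12) where
  toFun := ![1, 0, 3, 2, 5, 4, 7, 6, 9, 8, 11, 10]
  invFun := ![1, 0, 3, 2, 5, 4, 7, 6, 9, 8, 11, 10]
  left_inv := by decide
  right_inv := by decide



/-- The xor of the columns at the given places of a list of coordinates. -/
def val (ps : List ℕ) (l : List (Fin 12)) : ℕ :=
  (ps.map (fun p => cc (l.getD p 0))).foldr (fun a b => a ^^^ b) 0

/-- One step of the backtracking search: extend each list by a new entry such that the columns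
at the places `ps` add up to zero. -/
def extend (ps : List ℕ) (S : List (List (Fin 12))) : List (List (Fin 12)) :=
  S.flatMap (fun l => ((List.finRange 12).map (fun x => x :: l)).filter
    (fun l' => decide (l'.Nodup) && (val ps l' == 0)))

lemma mem_extend (ps : List ℕ) (S : List (List (Fin 12))) (x : Fin 12) (l : List (Fin 12))
    (hl : l ∈ S) (hx : (x :: l).Nodup) (hv : val ps (x :: l) = 0) : x :: l ∈ extend ps S := by
  simp only [extend, List.mem_flatMap, List.mem_filter, List.mem_map, List.mem_finRange]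
  exact ⟨l, hl, ⟨x, trivial, rfl⟩, by simp [hx, hv]⟩

/-- The result of the search. -/
def search : List (List (Fin 12)) :=
  extend [8, 1, 3, 0] (extend [1, 3, 0] (extend [] (extend [3, 1, 0] (extend [] (extend [1, 4, 2, 0] (extend [] (extend [1, 3, 0] (extend [] (extend [2, 1, 0] (extend [] (extend [] ([[]]))))))))))))

set_option maxRecDepth 100000 in
/-- A backtracking search, carried out by the kernel: the constraints coming from six codewords
of weights 3 and 4 leave only the identity and `σ`. -/
lemma key : search =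
    [[10, 6, 3, 8, 5, 11, 0, 9, 1, 7, 4, 2], [11, 7, 2, 9, 4, 10, 1, 8, 0, 6, 5, 3]] := by
  decide +kernel

lemma word_mem (l : List (Fin 12)) (h : ∀ j : Fin 6, ∑ i, Hm j i * word l i = 0) : word l ∈ C := h

lemma eq_one_or_eq_sigma (β : Equiv.Perm (Fin 12)) (hβ : β ∈ PAut C) : β = 1 ∨ β = σ := by
  have c1 := constraint β hβ [3, 5, 6] (by decide) (word_mem _ (by decide))
  have c2 := constraint β hβ [0, 5, 8] (by decide) (word_mem _ (by decide))
  have c3 := constraint β hβ [1, 6, 8, 10] (by decide) (word_mem _ (by decide))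
  have c4 := constraint β hβ [1, 4, 9] (by decide) (word_mem _ (by decide))
  have c5 := constraint β hβ [2, 4, 7] (by decide) (word_mem _ (by decide))
  have c6 := constraint β hβ [0, 7, 9, 11] (by decide) (word_mem _ (by decide))
  have nd : ∀ (l : List (Fin 12)), l.Nodup → (l.map β).Nodup := fun l h => h.map β.injective
  have h0 : ([] : List (Fin 12)).map β ∈ [([] : List (Fin 12))] := by simp
  have h1 := mem_extend [] _ (β 3) _ h0 (nd [3] (by decide)) rfl
  have h2 := mem_extend [] _ (β 5) _ h1 (nd [5, 3] (by decide)) rfl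
  have h3 := mem_extend [2, 1, 0] _ (β 6) _ h2 (nd [6, 5, 3] (by decide)) c1
  have h4 := mem_extend [] _ (β 0) _ h3 (nd [0, 6, 5, 3] (by decide)) rfl
  have h5 := mem_extend [1, 3, 0] _ (β 8) _ h4 (nd [8, 0, 6, 5, 3] (by decide)) c2
  have h6 := mem_extend [] _ (β 1) _ h5 (nd [1, 8, 0, 6, 5, 3] (by decide)) rfl
  have h7 := mem_extend [1, 4, 2, 0] _ (β 10) _ h6 (nd [10, 1, 8, 0, 6, 5, 3] (by decide)) c3
  have h8 := mem_extend [] _ (β 4) _ h7 (nd [4, 10, 1, 8, 0, 6, 5, 3] (by decide)) rfl
  have h9 := mem_extend [3, 1, 0] _ (β 9) _ h8 (nd [9, 4, 10, 1, 8, 0, 6, 5, 3] (by decide)) c4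
  have h10 := mem_extend [] _ (β 2) _ h9 (nd [2, 9, 4, 10, 1, 8, 0, 6, 5, 3] (by decide)) rfl
  have h11 := mem_extend [1, 3, 0] _ (β 7) _ h10 (nd [7, 2, 9, 4, 10, 1, 8, 0, 6, 5, 3] (by decide)) c5
  have h12 := mem_extend [8, 1, 3, 0] _ (β 11) _ h11 (nd [11, 7, 2, 9, 4, 10, 1, 8, 0, 6, 5, 3] (by decide)) c6
  have hs := key ▸ (show _ ∈ search from h12)
  clear c1 c2 c3 c4 c5 c6 nd h0 h1 h2 h3 h4 h5 h6 h7 h8 h9 h10 h11 h12
  simp only [List.mem_cons, List.not_mem_nil, or_false] at hs
  rcases hs with h | h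
  · right
    simp only [List.cons.injEq] at h
    obtain ⟨h11, h7, h2, h9, h4, h10, h1, h8, h0, h6, h5, h3, -⟩ := h
    apply Equiv.ext
    intro i
    fin_cases i
    · exact h0
    · exact h1
    · exact h2
    · exact h3
    · exact h4
    · exact h5
    · exact h6
    · exact h7
    · exact h8
    · exact h9
    · exact h10
    · exact h11
  · left
    simp only [List.cons.injEq] at h
    obtain ⟨h11, h7, h2, h9, h4, h10, h1, h8, h0, h6, h5, h3, -⟩ := h
    apply Equiv.ext
    intro i
    fin_cases i
    · exact h0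
    · exact h1
    · exact h2
    · exact h3
    · exact h4
    · exact h5
    · exact h6
    · exact h7
    · exact h8
    · exact h9
    · exact h10
    · exact h11

/-- The matrix expressing the parity checks moved by `σ` in terms of the parity checks. -/
def Tm : Fin 6 → Fin 6 → ZMod 2 :=
  ![![0, 1, 0, 0, 0, 0], ![1, 0, 0, 0, 0, 0], ![0, 0, 0, 1, 0, 0],
    ![0, 0, 1, 0, 0, 0], ![0, 0, 0, 0, 1, 0], ![1, 1, 1, 1, 1, 1]]

lemma Hm_sigma : ∀ (j : Fin 6) (i : Fin 12), Hm j (σ i) = ∑ k, Tm j k * Hm k i := by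
  decide

lemma act_sigma_mem (c : Fin 12 → ZMod 2) (hc : c ∈ C) : act σ c ∈ C := by
  intro j
  rw [← Equiv.sum_comp σ]
  simp only [act, Equiv.Perm.inv_def, Equiv.symm_apply_apply, Hm_sigma, Finset.sum_mul]
  rw [Finset.sum_comm]
  apply Finset.sum_eq_zero
  intro k _
  have := (mem_C c).mp hc k
  calc ∑ i, Tm j k * Hm k i * c i = Tm j k * ∑ i, Hm k i * c i := by
        rw [Finset.mul_sum]; exact Finset.sum_congr rfl (fun i _ => by ring)
    _ = 0 := by rw [this, mul_zero]

lemma sigma_mul_self : σ * σ = 1 := by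
  apply Equiv.ext
  intro i
  fin_cases i <;> rfl

lemma sigma_ne_one : σ ≠ 1 := by
  intro h
  have := congrArg (fun e : Equiv.Perm (Fin 12) => e 0) h
  exact absurd this (by decide)

lemma sigma_free : ∀ i : Fin 12, σ i ≠ i := by decide

lemma sigma_mem : σ ∈ PAut C := by
  show act σ '' (C : Set (Fin 12 → ZMod 2)) = (C : Set (Fin 12 → ZMod 2))
  apply Set.Subset.antisymm
  · rintro _ ⟨c, hc, rfl⟩
    exact act_sigma_mem c hc
  · intro c hc
    refine ⟨act σ c, act_sigma_mem c hc, ?_⟩
    have : act σ (act σ c) = (act σ ∘ act σ) c := rfl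
    rw [this, ← act_mul, sigma_mul_self, act_one]
    rfl

lemma mem_PAut_iff (β : Equiv.Perm (Fin 12)) : β ∈ PAut C ↔ β = 1 ∨ β = σ := by
  constructor
  · exact eq_one_or_eq_sigma β
  · rintro (rfl | rfl)
    · exact one_mem _
    · exact sigma_mem

lemma card_PAut : Nat.card (PAut C) = 2 := by
  have h : (PAut C : Set (Equiv.Perm (Fin 12))) = {1, σ} := by
    ext β
    simp only [SetLike.mem_coe, mem_PAut_iff, Set.mem_insert_iff, Set.mem_singleton_iff]
  have h2 : Nat.card (PAut C) = (PAut C : Set (Equiv.Perm (Fin 12))).ncard := rfl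
  rw [h2, h, Set.ncard_pair (Ne.symm sigma_ne_one)]

/-- There is a binary linear code of length 12 that is a quasi group code and whose permutation
automorphism group is cyclic of order 2. -/
theorem result : ∃ C : Submodule (ZMod 2) (Fin 12 → ZMod 2),
    IsQuasiGroupCode C ∧ Nonempty (PAut C ≃* Multiplicative (ZMod 2)) := by
  refine ⟨C, ⟨PAut C, le_rfl, ?_, ?_⟩, ?_⟩
  · intro h
    have := sigma_mem
    rw [h, Subgroup.mem_bot] at this
    exact sigma_ne_one this
  · intro g hg hg1 i
    rcases (mem_PAut_iff g).mp hg with rfl | rfl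
    · exact absurd rfl hg1
    · exact sigma_free i
  · have : Fact (Nat.Prime 2) := ⟨Nat.prime_two⟩
    exact ⟨mulEquivOfPrimeCardEq (p := 2) card_PAut (by simp)⟩

end Pool.Agent.Results.MP_e1d516_co.LengthTwelve
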